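import Pool.Agent.Helper739.SAPProb

namespace Pool.Agent.Results.MP_d21795_pr.InflatedNotGaussian

open Pool.Agent.Helper739 Filter ProbabilityTheory

/-- For every `q > 1` the area `X_m` of the fixed perimeter ensemble has no Gaussian limit law:
whatever the centring constants `c m` and the scaling constants `s m`, the distribution functions
`x ↦ ℙ(X_m ≤ c m + s m * x)` do not converge pointwise to that of `N(0,1)`. -/
theorem result (q : ℝ) (hq : 1 < q) (c s : ℕ → ℝ) :
    ¬ ∀ x : ℝ, Tendsto (fun m => distFun q m (c m + s m * x)) atTop
      (nhds (cdf (gaussianReal 0 1) x)) :=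
  not_gaussian hq c s

end Pool.Agent.Results.MP_d21795_pr.InflatedNotGaussian
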